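import Pool.Agent.Lib.MP_b525bf_ag_GU.PJD
import Pool.Agent.Lib.MP_b525bf_ag_GU.OPN

/-!
# Uniformization of finitely many valuations for group actions of complexity at most two
-/

open AlgebraicGeometry CategoryTheory
open Pool.Agent.MP_b525bf_ag_E Pool.Agent.MP_b525bf_ag_ES Pool.Agent.MP_b525bf_ag_SG
  Pool.Agent.MP_b525bf_ag_GU

/-- Let `k` be an infinite perfect field of characteristic `p > 0`, for example an algebraically
closed one, `A` a finitely generated graded `k`-algebra without zero divisors, generated by its
elements of degree zero and one, `A_1 ≠ 0`, and `G` a subgroup of `GL_N(k)` with root group data for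
a finite reduced root datum (as every split connected reductive group has), `B` its Borel subgroup,
with a rational action of `G` on `A` that respects the grading. Let `X` be a nonempty open subset of
`Proj A`, for example a projective scheme (`A_0 = k`) or an affine one (`X = Spec A_0`,
`A = A_0[t]`).

If the field of the `B`-invariant rational functions of `X` has transcendence degree at most two
over `k` (complexity at most two), then `X` is integral and uniformizable at finitely many
valuations: for all valuation rings `V_1, ..., V_m` of the function field with centres on `X`, of any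
rank and with any residue fields, there is a proper birational morphism `Y ⟶ X` from an integral
scheme, an isomorphism over the smooth locus of `X`, such that `Y` is smooth over `k` at the centres
of the `V_i`. -/
theorem Pool.Agent.Results.MP_b525bf_ag.ComplexityTwo.result (p : ℕ) [Fact p.Prime] (k : Type)
    [Field k] [PerfectField k] [Infinite k] [CharP k p] (A : Type) [CommRing A] [IsDomain A]
    [Algebra k A] [Algebra.FiniteType k A] (𝒜 : ℕ → Submodule k A) [GradedAlgebra 𝒜]
    (hgen : Algebra.adjoin k ((𝒜 0 : Set A) ∪ 𝒜 1) = ⊤) (hne : 𝒜 1 ≠ ⊥) {N n : ℕ} {R : Type}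
    [Finite R] {P : RootDatum R (Fin n → ℤ) (Fin n → ℤ)} [P.IsReduced] {b : P.Base}
    (G : Subgroup (GL (Fin N) k)) (D : RootGroupData P b G) (ρ : G →* (A ≃ₐ[k] A))
    (hρ : IsRational ρ) (hG : ∀ (g : G) (d : ℕ), ∀ a ∈ 𝒜 d, ρ g a ∈ 𝒜 d)
    (hc : Algebra.trdeg k ↥(invField (D.borel.map ρ) ⊓ projField 𝒜) ≤ 2) (U : (Proj 𝒜).Opens)
    (hU : (U : Set (Proj 𝒜)).Nonempty) :
    ∃ _ : IsIntegral (U : Scheme.{0}), UniformizableAtFinitelyMany (U.ι ≫ projTo 𝒜) := by
  obtain ⟨h1, h2⟩ := uniformizable_proj p k A 𝒜 hgen hne G D ρ hρ hG hc
  have h3 : Nonempty U := hU.to_subtype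
  have h4 : IsIntegral (U : Scheme.{0}) := isIntegral_of_isOpenImmersion U.ι
  exact ⟨h4, uniformizable_open _ h2 U⟩
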