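import Pool.Agent.Lib.D2.FIN2b
import Pool.Agent.Lib.D2.Main
import Pool.Agent.Lib.LU2_h15z.Final

/-!
# Proper birational modifications smooth at the centres of valuation rings all of whose rank one
components have Abhyankar defect at most one, or are zero-dimensional of defect at most two
-/

open AlgebraicGeometry CategoryTheory
open Pool.Agent.LU2G Pool.Agent.D2

/-- Let `k` be an algebraically closed field of characteristic `p`, `X` an integral scheme locally
of finite type over `k`, and `V_1, ..., V_m` valuation rings of the function field `K` of `X`, of
any rank. Assume that for every `i` the field `K` contains a finitely generated extension `F_i` of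
`k`, dense in `K` for `V_i`, such that `K` is separably generated over `F_i` (for example
`F_i = K`) and every rank one component of the valuation ring `V_i ∩ F_i` of `F_i` has Abhyankar
defect at most one over `k`, or has a residue field algebraic over `k`, defect at most two and
dimension `n` with `2 ^ n * n! < p`. Assume that every `V_i` has a centre on `X`: the generic point
`Spec K ⟶ X` extends to a morphism `c_i : Spec V_i ⟶ X`. Then there is a proper birational morphism
`π : Y ⟶ X` from an integral scheme, an isomorphism over every open subset `W` such that `X` is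
smooth over `k` at the centres that lie in `W` of all valuation rings `V' ≠ K` containing some `V_i`
(so over the smooth locus of `X`), such that every `c_i` lifts to `Y` and `Y` is smooth over `k` at
the centre of each `V_i`. -/
theorem Pool.Agent.Results.MP_b525bf_ag.DefectTwo.result (p : ℕ) [Fact p.Prime]
    (k : Type) [Field k] [IsAlgClosed k] [CharP k p] (X : Scheme.{0}) [IsIntegral X]
    (f : X ⟶ Spec (CommRingCat.of k)) [LocallyOfFiniteType f] (m : ℕ)
    (V : Fin m → ValuationSubring X.functionField)
    (hV : ∀ i, DenseDefectsLETwo p (consts f) (V i))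
    (c : ∀ i, Spec (CommRingCat.of (V i)) ⟶ X)
    (hc : ∀ i, Spec.map (CommRingCat.ofHom (algebraMap (V i) X.functionField)) ≫
      c i = X.fromSpecStalk (genericPoint X)) :
    ∃ (Y : Scheme.{0}) (π : Y ⟶ X), IsIntegral Y ∧ IsProper π ∧
      (∀ W : X.Opens, (∀ (i : Fin m) (V' : ValuationSubring X.functionField) (h : V i ≤ V'),
        V' ≠ ⊤ → (coarser h ≫ c i) (IsLocalRing.closedPoint V') ∈ W →
          IsSmoothAt f ((coarser h ≫ c i) (IsLocalRing.closedPoint V'))) → IsIso (π ∣_ W)) ∧
      ∀ i, ∃ c' : Spec (CommRingCat.of (V i)) ⟶ Y, c' ≫ π = c i ∧
        IsSmoothAt (π ≫ f) (c' (IsLocalRing.closedPoint (V i))) :=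
  Pool.Agent.D2.exists_smooth_centres2 p k (Pool.Agent.LU2.realCaseR p Fact.out)
    (Pool.Agent.D2.realCase2 p Fact.out k (Pool.Agent.D2.main2 p Fact.out k)) X f m V hV c hc
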