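import Pool.Agent.Lib.ALL_h67.FinalAll
import Pool.Agent.Lib.ALL52.Final

/-!
# Finitely many proper birational modifications are enough for the uniformization of all `N`-tuples
of valuations and of points, in large characteristic
-/

open AlgebraicGeometry CategoryTheory
open Pool.Agent.LU2G

/-- Let `k` be an algebraically closed field of characteristic `p`, `X` an integral scheme of finite
type over `k` of dimension `n` with `(n + 1) * 2 ^ (3 * n - 1) * (n!) ^ 2 < p`, and `N` a natural
number. Then there are an integral scheme `Z`, finitely many integral schemes `Y_j` and proper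
birational morphisms `g_j : Z ⟶ Y_j`, `π_j : Y_j ⟶ X` with the same composite `ρ : Z ⟶ X`,
isomorphisms over the smooth locus of `X`, such that
* for all points `z_1, ..., z_N` of `Z` there is a `j` such that `Y_j` is smooth over `k` at the
  points `g_j(z_1), ..., g_j(z_N)`;
* for all valuation rings `V_1, ..., V_N` of the function field of `X`, of any rank and with any
  residue fields, that have centres on `X`, there is a `j` such that `Y_j` is smooth over `k` at the
  centres of `V_1, ..., V_N`.
For `N = 1` this is the local uniformization of all valuations in its strongest, global form: a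
finite resolving system. -/
theorem Pool.Agent.Results.MP_b525bf_ag.LargeCharacteristic.result (p : ℕ) [Fact p.Prime]
    (k : Type) [Field k] [IsAlgClosed k] [CharP k p] (X : Scheme.{0}) [IsIntegral X]
    [CompactSpace X] (f : X ⟶ Spec (CommRingCat.of k)) [LocallyOfFiniteType f] (n : ℕ)
    (hn : @Algebra.trdeg k X.functionField _ _ (consts f).toAlgebra = n)
    (hp : (n + 1) * 2 ^ (3 * n - 1) * n.factorial ^ 2 < p) (N : ℕ) :
    ∃ (Z : Scheme.{0}) (ρ : Z ⟶ X) (M : ℕ) (Y : Fin M → Scheme.{0}) (π : ∀ j, Y j ⟶ X)
      (g : ∀ j, Z ⟶ Y j),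
      IsIntegral Z ∧ IsProper ρ ∧
      (∀ W : X.Opens, (∀ x ∈ W, IsSmoothAt f x) → IsIso (ρ ∣_ W)) ∧
      (∀ j, IsIntegral (Y j) ∧ IsProper (π j) ∧ g j ≫ π j = ρ ∧
        ∀ W : X.Opens, (∀ x ∈ W, IsSmoothAt f x) → IsIso (π j ∣_ W)) ∧
      (∀ z : Fin N → Z, ∃ j, ∀ i, IsSmoothAt (π j ≫ f) (g j (z i))) ∧
      ∀ (V : Fin N → ValuationSubring X.functionField)
        (c : ∀ i, Spec (CommRingCat.of (V i)) ⟶ X),
        (∀ i, Spec.map (CommRingCat.ofHom (algebraMap (V i) X.functionField)) ≫
          c i = X.fromSpecStalk (genericPoint X)) →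
        ∃ j, ∀ i, ∃ c' : Spec (CommRingCat.of (V i)) ⟶ Y j, c' ≫ π j = c i ∧
          IsSmoothAt (π j ≫ f) (c' (IsLocalRing.closedPoint (V i))) :=
  Pool.Agent.ALLQC.exists_finite_system_points_all Pool.Agent.ALLF.dimBound_mono p k
    (Pool.Agent.ALLF.realCaseFull_large p k) X f n hn hp N
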