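import Pool.Agent.Lib.ALL_h67.RH
import Pool.Agent.Lib.ALL52.Final

/-!
# Every scheme of finite type of dimension `n` over an algebraically closed field of large
characteristic has a finite covering by smooth schemes for the topology defined by valuation rings
-/

open AlgebraicGeometry CategoryTheory
open Pool.Agent.LU2G

/-- Let `k` be an algebraically closed field of characteristic `p` and `X` a scheme of finite type
over `k`, possibly reducible or not reduced, all integral closed subschemes of which have dimension
at most `n`, where `(n + 1) * 2 ^ (3 * n - 1) * (n!) ^ 2 < p`. Then there are finitely many integral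
closed subschemes `ι_j : Z_j ⟶ X`, proper birational morphisms `π_j : Y_j ⟶ Z_j` from integral
schemes, isomorphisms over the smooth locus of `Z_j`, and open subschemes `U_j` of `Y_j`, smooth
over `k`, such that for every valuation ring `V` every morphism `Spec V ⟶ X` lifts to a morphism
`Spec V ⟶ U_j` for some `j`. In other words the smooth schemes `U_j` are a covering of `X` for the
topology for which the coverings are the finite families with the lifting property for valuation
rings (the Riemann-Zariski or rh topology). -/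
theorem Pool.Agent.Results.MP_b525bf_ag.SmoothCover.result (p : ℕ) [Fact p.Prime] (k : Type)
    [Field k] [IsAlgClosed k] [CharP k p] (X : Scheme.{0}) [CompactSpace X]
    (f : X ⟶ Spec (CommRingCat.of k)) [LocallyOfFiniteType f] (n : ℕ)
    (hn : ∀ (Z : Scheme.{0}) (ι : Z ⟶ X) (_ : IsClosedImmersion ι) (_ : IsIntegral Z),
      @Algebra.trdeg k Z.functionField _ _ (consts (ι ≫ f)).toAlgebra ≤ n)
    (hp : (n + 1) * 2 ^ (3 * n - 1) * n.factorial ^ 2 < p) :
    ∃ (M : ℕ) (Z Y : Fin M → Scheme.{0}) (ι : ∀ j, Z j ⟶ X) (π : ∀ j, Y j ⟶ Z j)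
      (U : ∀ j, (Y j).Opens),
      (∀ j, IsClosedImmersion (ι j) ∧ IsIntegral (Z j) ∧ IsIntegral (Y j) ∧ IsProper (π j) ∧
        (∀ W : (Z j).Opens, (∀ x ∈ W, IsSmoothAt (ι j ≫ f) x) → IsIso (π j ∣_ W)) ∧
        AlgebraicGeometry.Smooth ((U j).ι ≫ π j ≫ ι j ≫ f)) ∧
      ∀ (V : Type) [CommRing V] [IsDomain V] [ValuationRing V]
        (c : Spec (CommRingCat.of V) ⟶ X), ∃ j, ∃ c' : Spec (CommRingCat.of V) ⟶ (U j).toScheme,
          c' ≫ (U j).ι ≫ π j ≫ ι j = c :=
  Pool.Agent.ALLQC.exists_rh_cover_all Pool.Agent.ALLF.dimBound_mono p k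
    (Pool.Agent.ALLF.realCaseFull_large p k) X f n hn hp
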